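import Mathlib

set_option autoImplicit false


namespace Pool.Agent.Results.MP_8a180b_co.Determined

open Finset

/-- `u` is a dual orthonormal representation of `G` in `ℝ^d`. -/
def IsRep {V : Type} (G : SimpleGraph V) {d : ℕ} (u : V → Fin d → ℝ) : Prop :=
  (∀ i, ∑ k, u i k * u i k = 1) ∧ ∀ i j, G.Adj i j → ∑ k, u i k * u j k = 0

/-- The numbers `t` for which there are a dual orthonormal representation `u` and a unit vector `c`
with `1 / ⟨c, u_i⟩² ≤ t` for all `i` (`1 / 0` being infinite). -/
def Feas {V : Type} (G : SimpleGraph V) : Set ℝ :=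
  {t | ∃ (d : ℕ) (u : V → Fin d → ℝ) (c : Fin d → ℝ), IsRep G u ∧ ∑ k, c k * c k = 1 ∧
    ∀ i, ∑ k, c k * u i k ≠ 0 ∧ 1 / (∑ k, c k * u i k) ^ 2 ≤ t}

/-- The complementary theta number. -/
noncomputable def thetaBar {V : Type} (G : SimpleGraph V) : ℝ := sInf (Feas G)

/-- Adjacency in the path `0, 1, ..., r` with a loop at `0`. -/
def PathAdj (i j : ℕ) : Prop := i + 1 = j ∨ j + 1 = i ∨ (i = 0 ∧ j = 0)

/-- The identification of all vertices `(v, r)` of `G × P_r`. -/
def ident {V : Type} {r : ℕ} (p : V × Fin (r + 1)) : Option (V × Fin r) :=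
  if h : p.2.val < r then some (p.1, ⟨p.2.val, h⟩) else none

/-- The generalised Mycielskian `M_r(G)`: the graph obtained from the categorical product of `G`
and the path with a loop by identifying all vertices `(v, r)`. -/
def Mr {V : Type} (G : SimpleGraph V) (r : ℕ) : SimpleGraph (Option (V × Fin r)) where
  Adj x y := x ≠ y ∧ ∃ p q : V × Fin (r + 1), ident p = x ∧ ident q = y ∧ G.Adj p.1 q.1 ∧
    PathAdj p.2.val q.2.val
  symm := ⟨by
    rintro x y ⟨hne, p, q, hp, hq, h1, h2⟩
    refine ⟨hne.symm, q, p, hq, hp, h1.symm, ?_⟩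
    unfold PathAdj at *
    tauto⟩
  loopless := ⟨fun x h => h.1 rfl⟩

section Basic

variable {V : Type} [Fintype V]

/-- Nonnegative quadratic forms. -/
def PF {ι : Type} [Fintype ι] (Z : ι → ι → ℝ) : Prop :=
  ∀ x : ι → ℝ, 0 ≤ ∑ i, ∑ j, x i * Z i j * x j

open scoped MatrixOrder in
lemma gram {ι : Type} [Fintype ι] (Z : ι → ι → ℝ) (hs : ∀ i j, Z i j = Z j i) (hp : PF Z) :
    ∃ z : ι → ι → ℝ, ∀ i j, Z i j = ∑ k, z i k * z j k := by
  classical
  have hM : (Matrix.of Z).PosSemidef := by
    apply Matrix.PosSemidef.of_dotProduct_mulVec_nonneg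
    · ext i j
      simp [Matrix.conjTranspose_apply, hs j i]
    · intro x
      have := hp x
      simp only [dotProduct, Matrix.mulVec, Matrix.of_apply, star_trivial, Finset.mul_sum,
        Pi.star_apply]
      calc (0 : ℝ) ≤ ∑ i, ∑ j, x i * Z i j * x j := this
        _ = _ := by
            apply sum_congr rfl; intro i _; apply sum_congr rfl; intro j _; ring
  obtain ⟨a, ha⟩ := CStarAlgebra.nonneg_iff_eq_star_mul_self.mp hM.nonneg
  refine ⟨fun i k => a k i, fun i j => ?_⟩
  have h1 : Z i j = (star a * a) i j := by rw [← ha]; rfl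
  rw [h1, Matrix.mul_apply]
  rfl

lemma PF_of_gram {ι κ : Type} [Fintype ι] [Fintype κ] (Z : ι → ι → ℝ) (z : ι → κ → ℝ)
    (h : ∀ i j, Z i j = ∑ k, z i k * z j k) : PF Z := by
  intro x
  have : ∑ i, ∑ j, x i * Z i j * x j = ∑ k, (∑ i, x i * z i k) ^ 2 := by
    calc ∑ i, ∑ j, x i * Z i j * x j = ∑ i, ∑ j, ∑ k, (x i * z i k) * (x j * z j k) := by
          apply sum_congr rfl; intro i _; apply sum_congr rfl; intro j _
          rw [h, mul_sum, sum_mul]
          apply sum_congr rfl; intro k _; ring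
      _ = ∑ i, ∑ k, ∑ j, (x i * z i k) * (x j * z j k) := by
          apply sum_congr rfl; intro i _; rw [sum_comm]
      _ = ∑ k, ∑ i, ∑ j, (x i * z i k) * (x j * z j k) := by rw [sum_comm]
      _ = _ := by
          apply sum_congr rfl; intro k _
          rw [sq, sum_mul_sum]
  rw [this]
  exact sum_nonneg (fun k _ => sq_nonneg _)

/-- Representations indexed by arbitrary finite types. -/
lemma feas_of {κ : Type} [Fintype κ] {G : SimpleGraph V} {t : ℝ} (u : V → κ → ℝ) (c : κ → ℝ)
    (h1 : ∀ i, ∑ k, u i k * u i k = 1) (h2 : ∀ i j, G.Adj i j → ∑ k, u i k * u j k = 0)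
    (h3 : ∑ k, c k * c k = 1)
    (h4 : ∀ i, ∑ k, c k * u i k ≠ 0 ∧ 1 / (∑ k, c k * u i k) ^ 2 ≤ t) : t ∈ Feas G := by
  classical
  let e := (Fintype.equivFin κ).symm
  have hsum : ∀ f : κ → ℝ, ∑ k, f (e k) = ∑ k, f k := fun f => Equiv.sum_comp e f
  refine ⟨Fintype.card κ, fun v k => u v (e k), fun k => c (e k), ⟨?_, ?_⟩, ?_, ?_⟩
  · intro i; rw [hsum (fun k => u i k * u i k)]; exact h1 i
  · intro i j h; rw [hsum (fun k => u i k * u j k)]; exact h2 i j h
  · rw [hsum (fun k => c k * c k)]; exact h3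
  · intro i; rw [hsum (fun k => c k * u i k)]; exact h4 i

lemma feas_pos {G : SimpleGraph V} {t : ℝ} (ht : t ∈ Feas G) :
    ∃ (d : ℕ) (u : V → Fin d → ℝ) (c : Fin d → ℝ), IsRep G u ∧ ∑ k, c k * c k = 1 ∧
      ∀ i, 0 < ∑ k, c k * u i k ∧ 1 / (∑ k, c k * u i k) ^ 2 ≤ t := by
  classical
  obtain ⟨d, u, c, ⟨h1, h2⟩, h3, h4⟩ := ht
  let s : V → ℝ := fun i => if 0 < ∑ k, c k * u i k then 1 else -1
  have hs : ∀ i, s i * s i = 1 := by
    intro i; simp only [s]; split_ifs <;> norm_num
  have hc : ∀ i, ∑ k, c k * (s i * u i k) = s i * ∑ k, c k * u i k := by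
    intro i; rw [mul_sum]; apply sum_congr rfl; intro k _; ring
  refine ⟨d, fun i k => s i * u i k, c, ⟨?_, ?_⟩, h3, ?_⟩
  · intro i
    rw [← h1 i]
    apply sum_congr rfl; intro k _
    calc s i * u i k * (s i * u i k) = (s i * s i) * (u i k * u i k) := by ring
      _ = _ := by rw [hs, one_mul]
  · intro i j h
    calc ∑ k, s i * u i k * (s j * u j k) = (s i * s j) * ∑ k, u i k * u j k := by
          rw [mul_sum]; apply sum_congr rfl; intro k _; ring
      _ = 0 := by rw [h2 i j h, mul_zero]
  · intro i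
    rw [hc]
    refine ⟨?_, ?_⟩
    · simp only [s]
      split_ifs with h
      · rw [one_mul]; exact h
      · have := (h4 i).1
        push Not at h
        have h5 : ∑ k, c k * u i k < 0 := lt_of_le_of_ne h this
        linarith
    · rw [mul_pow, sq (s i), hs, one_mul]
      exact (h4 i).2

/-- From a representation to a form. -/
lemma form_of_feas {G : SimpleGraph V} {t : ℝ} (ht : t ∈ Feas G) :
    ∃ Z : V → V → ℝ, (∀ i j, Z i j = Z j i) ∧ PF Z ∧ (∀ i, Z i i ≤ t - 1) ∧
      ∀ i j, G.Adj i j → Z i j = -1 := by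
  obtain ⟨d, u, c, ⟨h1, h2⟩, h3, h4⟩ := ht
  set a : V → ℝ := fun i => ∑ k, c k * u i k with ha
  set z : V → Fin d → ℝ := fun i k => c k - u i k / a i with hz
  have key : ∀ i j, ∑ k, z i k * z j k = -1 + (∑ k, u i k * u j k) / (a i * a j) := by
    intro i j
    have hi : a i ≠ 0 := (h4 i).1
    have hj : a j ≠ 0 := (h4 j).1
    calc ∑ k, z i k * z j k = ∑ k, (c k * c k - (c k * u j k) / a j - (c k * u i k) / a i
          + (u i k * u j k) / (a i * a j)) := by
          apply sum_congr rfl; intro k _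
          simp only [hz]; field_simp; ring
      _ = 1 - a j / a j - a i / a i + (∑ k, u i k * u j k) / (a i * a j) := by
          rw [sum_add_distrib, sum_sub_distrib, sum_sub_distrib, h3, ← sum_div, ← sum_div,
            ← sum_div]
      _ = _ := by rw [div_self hi, div_self hj]; ring
  refine ⟨fun i j => ∑ k, z i k * z j k, ?_, ?_, ?_, ?_⟩
  · intro i j; apply sum_congr rfl; intro k _; ring
  · exact PF_of_gram _ z (fun i j => rfl)
  · intro i
    show ∑ k, z i k * z i k ≤ t - 1
    rw [key, h1 i]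
    have := (h4 i).2
    have h5 : (∑ k, c k * u i k) ^ 2 = a i * a i := by rw [sq]
    rw [h5] at this
    linarith
  · intro i j h
    show ∑ k, z i k * z j k = -1
    rw [key, h2 i j h, zero_div, add_zero]

/-- From a form to a representation. -/
lemma feas_of_form {G : SimpleGraph V} {t : ℝ} (Z : V → V → ℝ) (hs : ∀ i j, Z i j = Z j i)
    (hp : PF Z) (hd : ∀ i, Z i i ≤ t - 1) (he : ∀ i j, G.Adj i j → Z i j = -1) : t ∈ Feas G := by
  classical
  obtain ⟨z, hz⟩ := gram Z hs hp
  have hZ0 : ∀ i, 0 ≤ Z i i := by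
    intro i; rw [hz]; exact sum_nonneg (fun k _ => mul_self_nonneg _)
  set n : V → ℝ := fun i => Real.sqrt (1 + Z i i) with hn
  have hn2 : ∀ i, n i * n i = 1 + Z i i := fun i => Real.mul_self_sqrt (by linarith [hZ0 i])
  have hn0 : ∀ i, 0 < n i := fun i => Real.sqrt_pos.mpr (by linarith [hZ0 i])
  -- vectors indexed by `Option V`
  set u : V → Option V → ℝ := fun i o => match o with
    | none => 1 / n i
    | some k => z i k / n i with hu
  have key : ∀ i j, ∑ o, u i o * u j o = (1 + Z i j) / (n i * n j) := by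
    intro i j
    rw [Fintype.sum_option]
    simp only [hu]
    rw [hz i j, add_div, sum_div]
    congr 1
    · field_simp
    · apply sum_congr rfl; intro k _; field_simp
  have hcu : ∀ i, ∑ o, (if o = none then (1 : ℝ) else 0) * u i o = 1 / n i := by
    intro i
    rw [Fintype.sum_option]
    simp [hu]
  refine feas_of (κ := Option V) u (fun o => if o = none then 1 else 0) ?_ ?_ ?_ ?_
  · intro i; rw [key, ← hn2]; exact div_self (mul_ne_zero (hn0 i).ne' (hn0 i).ne')
  · intro i j h; rw [key, he i j h]; simp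
  · rw [Fintype.sum_option]; simp
  · intro i
    rw [hcu]
    refine ⟨(one_div_pos.mpr (hn0 i)).ne', ?_⟩
    rw [div_pow, one_pow, one_div_one_div, sq, hn2]
    linarith [hd i]

lemma feas_nonneg [Nonempty V] {G : SimpleGraph V} {t : ℝ} (ht : t ∈ Feas G) : 0 ≤ t := by
  obtain ⟨d, u, c, h, h3, h4⟩ := ht
  obtain ⟨i⟩ := (inferInstance : Nonempty V)
  exact le_trans (by positivity) (h4 i).2

lemma feas_bdd [Nonempty V] (G : SimpleGraph V) : BddBelow (Feas G) :=
  ⟨0, fun _ h => feas_nonneg h⟩

lemma feas_nonempty (G : SimpleGraph V) : (Feas G).Nonempty := by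
  classical
  refine ⟨Fintype.card V + 1, feas_of_form (fun i j => if i = j then (Fintype.card V : ℝ)
    else -1) ?_ ?_ ?_ ?_⟩
  · intro i j
    by_cases h : i = j
    · rw [if_pos h, if_pos h.symm]
    · rw [if_neg h, if_neg (fun h' => h h'.symm)]
  · intro x
    have h1 : ∑ i, ∑ j, x i * (if i = j then (Fintype.card V : ℝ) else -1) * x j =
        (Fintype.card V + 1) * ∑ i, x i ^ 2 - (∑ i, x i) ^ 2 := by
      have h2 : ∀ i, ∑ j, x i * (if i = j then (Fintype.card V : ℝ) else -1) * x j =
          (Fintype.card V + 1) * x i ^ 2 - x i * ∑ j, x j := by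
        intro i
        rw [mul_sum, ← sum_erase_add _ _ (mem_univ i), ← sum_erase_add univ (fun j => x i * x j)
          (mem_univ i)]
        rw [if_pos rfl]
        have h3 : ∑ j ∈ univ.erase i, x i * (if i = j then (Fintype.card V : ℝ) else -1) * x j =
            - ∑ j ∈ univ.erase i, x i * x j := by
          rw [← sum_neg_distrib]
          apply sum_congr rfl
          intro j hj
          rw [if_neg (ne_of_mem_erase hj).symm]; ring
        rw [h3]; ring
      simp_rw [h2]
      rw [sum_sub_distrib, ← mul_sum, ← sum_mul, sq (∑ i, x i)]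
    rw [h1]
    have h4 := sq_sum_le_card_mul_sum_sq (s := (univ : Finset V)) (f := x)
    rw [card_univ] at h4
    have h5 : 0 ≤ ∑ i, x i ^ 2 := sum_nonneg (fun i _ => sq_nonneg _)
    nlinarith
  · intro i; simp
  · intro i j h; rw [if_neg h.ne]

/-- The minimum is attained. -/
lemma attained [Nonempty V] (G : SimpleGraph V) :
    ∃ Z : V → V → ℝ, (∀ i j, Z i j = Z j i) ∧ PF Z ∧ (∀ i, Z i i = thetaBar G - 1) ∧
      ∀ i j, G.Adj i j → Z i j = -1 := by
  classical
  -- it suffices to have an inequality on the diagonal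
  suffices hsuff : ∃ Z : V → V → ℝ, (∀ i j, Z i j = Z j i) ∧ PF Z ∧
      (∀ i, Z i i ≤ thetaBar G - 1) ∧ ∀ i j, G.Adj i j → Z i j = -1 by
    obtain ⟨Z, h1, h2, h3, h4⟩ := hsuff
    refine ⟨fun i j => Z i j + if i = j then (thetaBar G - 1 - Z i i) else 0, ?_, ?_, ?_, ?_⟩
    · intro i j
      by_cases h : i = j
      · subst h; rfl
      · show Z i j + (if i = j then _ else 0) = Z j i + (if j = i then _ else 0)
        rw [if_neg h, if_neg (fun h' => h h'.symm), h1]
    · intro x
      have e1 : ∑ i, ∑ j, x i * (Z i j + if i = j then (thetaBar G - 1 - Z i i) else 0) * x j =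
          (∑ i, ∑ j, x i * Z i j * x j) + ∑ i, (thetaBar G - 1 - Z i i) * (x i * x i) := by
        rw [← sum_add_distrib]
        apply sum_congr rfl; intro i _
        have e2 : ∑ j, x i * (Z i j + if i = j then (thetaBar G - 1 - Z i i) else 0) * x j =
            ∑ j, (x i * Z i j * x j + if i = j then (thetaBar G - 1 - Z i i) * (x i * x j)
              else 0) := by
          apply sum_congr rfl; intro j _
          split_ifs <;> ring
        rw [e2, sum_add_distrib, sum_ite_eq univ i, if_pos (mem_univ i)]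
      rw [e1]
      have e3 : 0 ≤ ∑ i, (thetaBar G - 1 - Z i i) * (x i * x i) :=
        sum_nonneg (fun i _ => mul_nonneg (by linarith [h3 i]) (mul_self_nonneg _))
      linarith [h2 x]
    · intro i; simp
    · intro i j h
      show Z i j + (if i = j then _ else 0) = -1
      rw [if_neg h.ne, h4 i j h, add_zero]
  -- a minimising sequence
  have hex : ∀ n : ℕ, ∃ Z : V → V → ℝ, (∀ i j, Z i j = Z j i) ∧ PF Z ∧
      (∀ i, Z i i ≤ thetaBar G + 1 / ((n : ℝ) + 1) - 1) ∧ ∀ i j, G.Adj i j → Z i j = -1 := by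
    intro n
    have hpos : (0 : ℝ) < 1 / ((n : ℝ) + 1) := by positivity
    obtain ⟨s, hs, hlt⟩ := exists_lt_of_csInf_lt (feas_nonempty G)
      (show sInf (Feas G) < thetaBar G + 1 / ((n : ℝ) + 1) by
        have : sInf (Feas G) = thetaBar G := rfl
        rw [this]; linarith)
    obtain ⟨Z, h1, h2, h3, h4⟩ := form_of_feas hs
    exact ⟨Z, h1, h2, fun i => (h3 i).trans (by linarith), h4⟩
  choose Z hZ1 hZ2 hZ3 hZ4 using hex
  -- boundedness
  have hdiag0 : ∀ n i, 0 ≤ Z n i i := by
    intro n i
    obtain ⟨z, hz⟩ := gram (Z n) (hZ1 n) (hZ2 n)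
    rw [hz]; exact sum_nonneg (fun k _ => mul_self_nonneg _)
  have hM : ∀ n i, Z n i i ≤ thetaBar G := by
    intro n i
    have h1 : 1 / ((n : ℝ) + 1) ≤ 1 := by
      rw [div_le_one (by positivity)]
      have : (0 : ℝ) ≤ n := Nat.cast_nonneg n
      linarith
    linarith [hZ3 n i]
  have hbd : ∀ n i j, |Z n i j| ≤ thetaBar G := by
    intro n i j
    obtain ⟨z, hz⟩ := gram (Z n) (hZ1 n) (hZ2 n)
    have h1 : 0 ≤ ∑ k, (z i k - z j k) ^ 2 := sum_nonneg (fun k _ => sq_nonneg _)
    have h2 : 0 ≤ ∑ k, (z i k + z j k) ^ 2 := sum_nonneg (fun k _ => sq_nonneg _)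
    have e1 : ∑ k, (z i k - z j k) ^ 2 = Z n i i + Z n j j - 2 * Z n i j := by
      rw [hz i i, hz j j, hz i j, mul_sum, ← sum_add_distrib, ← sum_sub_distrib]
      apply sum_congr rfl; intro k _; ring
    have e2 : ∑ k, (z i k + z j k) ^ 2 = Z n i i + Z n j j + 2 * Z n i j := by
      rw [hz i i, hz j j, hz i j, mul_sum, ← sum_add_distrib, ← sum_add_distrib]
      apply sum_congr rfl; intro k _; ring
    rw [abs_le]
    have := hM n i
    have := hM n j
    constructor <;> linarith
  have hbdd : Bornology.IsBounded (Set.range Z) := by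
    rw [isBounded_iff_forall_norm_le]
    refine ⟨|thetaBar G|, ?_⟩
    rintro _ ⟨n, rfl⟩
    rw [pi_norm_le_iff_of_nonneg (abs_nonneg _)]
    intro i
    rw [pi_norm_le_iff_of_nonneg (abs_nonneg _)]
    intro j
    exact (hbd n i j).trans (le_abs_self _)
  obtain ⟨A, -, φ, hφ, hA⟩ := tendsto_subseq_of_bounded hbdd (fun n => Set.mem_range_self n)
  have hent : ∀ i j, Filter.Tendsto (fun n => Z (φ n) i j) Filter.atTop (nhds (A i j)) := by
    intro i j
    have h1 := (tendsto_pi_nhds.mp hA i)
    exact tendsto_pi_nhds.mp h1 j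
  refine ⟨A, ?_, ?_, ?_, ?_⟩
  · intro i j
    apply tendsto_nhds_unique (hent i j)
    refine (hent j i).congr (fun n => hZ1 _ _ _)
  · intro x
    have h1 : Filter.Tendsto (fun n => ∑ i, ∑ j, x i * Z (φ n) i j * x j) Filter.atTop
        (nhds (∑ i, ∑ j, x i * A i j * x j)) :=
      tendsto_finsetSum _ (fun i _ => tendsto_finsetSum _ (fun j _ =>
        ((hent i j).const_mul _).mul_const _))
    exact ge_of_tendsto' h1 (fun n => hZ2 _ x)
  · intro i
    have h1 : Filter.Tendsto (fun n : ℕ => thetaBar G + 1 / (((φ n : ℕ) : ℝ) + 1) - 1)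
        Filter.atTop (nhds (thetaBar G + 0 - 1)) :=
      ((tendsto_one_div_add_atTop_nhds_zero_nat.comp hφ.tendsto_atTop).const_add _).sub_const _
    rw [add_zero] at h1
    exact le_of_tendsto_of_tendsto' (hent i i) h1 (fun n => hZ3 _ i)
  · intro i j h
    exact tendsto_nhds_unique (hent i j) (tendsto_const_nhds.congr (fun n => (hZ4 _ i j h).symm))

/-- The trace product of two forms. -/
lemma trace_nonneg (Z B : V → V → ℝ) (hZs : ∀ i j, Z i j = Z j i) (hZ : PF Z)
    (hB : PF B) : 0 ≤ ∑ i, ∑ j, Z i j * B i j := by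
  obtain ⟨z, hz⟩ := gram Z hZs hZ
  have e1 : ∑ i, ∑ j, Z i j * B i j = ∑ k, ∑ i, ∑ j, z i k * B i j * z j k := by
    calc ∑ i, ∑ j, Z i j * B i j = ∑ i, ∑ j, ∑ k, z i k * B i j * z j k := by
          apply sum_congr rfl; intro i _; apply sum_congr rfl; intro j _
          rw [hz, sum_mul]
          apply sum_congr rfl; intro k _; ring
      _ = ∑ i, ∑ k, ∑ j, z i k * B i j * z j k := by
          apply sum_congr rfl; intro i _; rw [sum_comm]
      _ = _ := by rw [sum_comm]
  rw [e1]
  exact sum_nonneg (fun k _ => hB (fun i => z i k))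

/-- Weak duality. -/
lemma weak [Nonempty V] (G : SimpleGraph V) (B : V → V → ℝ) (hB : PF B) (h0 : ∀ i j, i ≠ j → ¬ G.Adj i j → B i j = 0) :
    ∑ i, ∑ j, B i j ≤ thetaBar G * ∑ i, B i i := by
  classical
  obtain ⟨Z, h1, h2, h3, h4⟩ := attained G
  have h5 := trace_nonneg Z B h1 h2 hB
  have h6 : ∀ i, ∑ j, Z i j * B i j = thetaBar G * B i i - ∑ j, B i j := by
    intro i
    rw [← sum_erase_add _ _ (mem_univ i), ← sum_erase_add univ (fun j => B i j) (mem_univ i), h3]
    have h7 : ∑ j ∈ univ.erase i, Z i j * B i j = - ∑ j ∈ univ.erase i, B i j := by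
      rw [← sum_neg_distrib]
      apply sum_congr rfl
      intro j hj
      by_cases hadj : G.Adj i j
      · rw [h4 i j hadj]; ring
      · rw [h0 i j (ne_of_mem_erase hj).symm hadj]; ring
    rw [h7]; ring
  simp_rw [h6] at h5
  rw [sum_sub_distrib, ← mul_sum] at h5
  linarith

/-- Bound for a form by the sum of the absolute values of its entries. -/
lemma form_bound (D : V → V → ℝ) (x : V → ℝ) :
    - ((∑ i, ∑ j, |D i j|) * ∑ k, x k ^ 2) ≤ ∑ i, ∑ j, x i * D i j * x j := by
  have h1 : ∀ i j, - (|D i j| * ∑ k, x k ^ 2) ≤ x i * D i j * x j := by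
    intro i j
    have hi : x i ^ 2 ≤ ∑ k, x k ^ 2 := single_le_sum (f := fun k => x k ^ 2)
      (fun k _ => sq_nonneg _) (mem_univ i)
    have hj : x j ^ 2 ≤ ∑ k, x k ^ 2 := single_le_sum (f := fun k => x k ^ 2)
      (fun k _ => sq_nonneg _) (mem_univ j)
    have h2 : |x i * x j| ≤ ∑ k, x k ^ 2 := by
      rw [abs_le]; constructor <;> nlinarith [sq_nonneg (x i - x j), sq_nonneg (x i + x j)]
    have h3 : |x i * D i j * x j| ≤ |D i j| * ∑ k, x k ^ 2 := by
      have : x i * D i j * x j = D i j * (x i * x j) := by ring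
      rw [this, abs_mul]
      exact mul_le_mul_of_nonneg_left h2 (abs_nonneg _)
    exact (neg_le_neg h3).trans (neg_abs_le _)
  rw [sum_mul, ← sum_neg_distrib]
  apply sum_le_sum; intro i _
  rw [sum_mul, ← sum_neg_distrib]
  exact sum_le_sum (fun j _ => h1 i j)

open Classical in
/-- The total violation of the equations at the edges. -/
noncomputable def viol (G : SimpleGraph V) (Z A : V → V → ℝ) : ℝ :=
  ∑ i, ∑ j, |if G.Adj i j then A i j - Z i j else 0|

/-- The open convex cone used for the separation. -/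
def cone (G : SimpleGraph V) : Set (V → V → ℝ) :=
  {A | ∃ Z : V → V → ℝ, (∀ i j, Z i j = Z j i) ∧ PF Z ∧ ∀ h, Z h h + viol G Z A < A h h}

lemma isOpen_cone (G : SimpleGraph V) : IsOpen (cone G) := by
  classical
  have : cone G = ⋃ Z : {Z : V → V → ℝ // (∀ i j, Z i j = Z j i) ∧ PF Z},
      ⋂ h, {A | Z.1 h h + viol G Z.1 A < A h h} := by
    ext A
    simp only [cone, Set.mem_ofPred_eq, Set.mem_iUnion, Set.mem_iInter]
    constructor
    · rintro ⟨Z, h1, h2, h3⟩; exact ⟨⟨Z, h1, h2⟩, h3⟩
    · rintro ⟨⟨Z, h1, h2⟩, h3⟩; exact ⟨Z, h1, h2, h3⟩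
  rw [this]
  apply isOpen_iUnion; intro Z
  apply isOpen_iInter_of_finite; intro h
  apply isOpen_lt
  · unfold viol
    refine continuous_const.add (continuous_finsetSum _ (fun i _ => continuous_finsetSum _
      (fun j _ => ?_)))
    split_ifs <;> fun_prop
  · fun_prop

lemma viol_smul_add (G : SimpleGraph V) (Z Z' A A' : V → V → ℝ) (a b : ℝ) (ha : 0 ≤ a)
    (hb : 0 ≤ b) : viol G (a • Z + b • Z') (a • A + b • A') ≤ a * viol G Z A + b * viol G Z' A' := by
  classical
  unfold viol
  rw [mul_sum, mul_sum, ← sum_add_distrib]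
  apply sum_le_sum; intro i _
  rw [mul_sum, mul_sum, ← sum_add_distrib]
  apply sum_le_sum; intro j _
  split_ifs with h
  · simp only [Pi.add_apply, Pi.smul_apply, smul_eq_mul]
    have : a * A i j + b * A' i j - (a * Z i j + b * Z' i j) =
        a * (A i j - Z i j) + b * (A' i j - Z' i j) := by ring
    rw [this]
    refine (abs_add_le _ _).trans ?_
    rw [abs_mul, abs_mul, abs_of_nonneg ha, abs_of_nonneg hb]
  · simp

lemma PF_comb (Z Z' : V → V → ℝ) (a b : ℝ) (ha : 0 ≤ a) (hb : 0 ≤ b) (h : PF Z) (h' : PF Z') :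
    PF (a • Z + b • Z') := by
  intro x
  have : ∑ i, ∑ j, x i * (a • Z + b • Z') i j * x j =
      a * (∑ i, ∑ j, x i * Z i j * x j) + b * ∑ i, ∑ j, x i * Z' i j * x j := by
    rw [mul_sum, mul_sum, ← sum_add_distrib]
    apply sum_congr rfl; intro i _
    rw [mul_sum, mul_sum, ← sum_add_distrib]
    apply sum_congr rfl; intro j _
    simp only [Pi.add_apply, Pi.smul_apply, smul_eq_mul]; ring
  rw [this]
  exact add_nonneg (mul_nonneg ha (h x)) (mul_nonneg hb (h' x))

lemma convex_cone (G : SimpleGraph V) : Convex ℝ (cone G) := by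
  rintro A ⟨Z, h1, h2, h3⟩ A' ⟨Z', h1', h2', h3'⟩ a b ha hb hab
  refine ⟨a • Z + b • Z', ?_, PF_comb Z Z' a b ha hb h2 h2', ?_⟩
  · intro i j
    simp only [Pi.add_apply, Pi.smul_apply, smul_eq_mul]
    rw [h1 i j, h1' i j]
  · intro h
    have h4 := viol_smul_add G Z Z' A A' a b ha hb
    have h5 := h3 h
    have h6 := h3' h
    have h7 : a * (Z h h + viol G Z A) + b * (Z' h h + viol G Z' A') < a * A h h + b * A' h h := by
      rcases ha.eq_or_lt with h0 | h0
      · have hb1 : b = 1 := by linarith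
        rw [← h0, hb1]; linarith
      · have h8 : a * (Z h h + viol G Z A) < a * A h h := mul_lt_mul_of_pos_left h5 h0
        have h9 : b * (Z' h h + viol G Z' A') ≤ b * A' h h := mul_le_mul_of_nonneg_left h6.le hb
        linarith
    simp only [Pi.add_apply, Pi.smul_apply, smul_eq_mul]
    nlinarith

lemma not_mem_cone [Nonempty V] [DecidableEq V] (G : SimpleGraph V) :
    (fun i j => if i = j then thetaBar G - 1 else -1) ∉ cone G := by
  classical
  rintro ⟨Z, h1, h2, h3⟩
  set p : V → V → ℝ := fun i j => if i = j then thetaBar G - 1 else -1 with hp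
  set S := viol G Z p with hS
  obtain ⟨m, -, hm⟩ := (univ : Finset V).exists_max_image (fun h => Z h h) univ_nonempty
  set Z' : V → V → ℝ := fun i j => if i = j then Z i i + S else if G.Adj i j then -1 else Z i j
    with hZ'
  have hfe : Z m m + S + 1 ∈ Feas G := by
    apply feas_of_form Z'
    · intro i j
      simp only [hZ']
      by_cases h : i = j
      · subst h; rfl
      · have h' : ¬ j = i := fun e => h e.symm
        simp only [if_neg h, if_neg h']
        by_cases hadj : G.Adj i j
        · simp [hadj, hadj.symm]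
        · have hadj' : ¬ G.Adj j i := fun e => hadj e.symm
          simp [hadj, hadj', h1 i j]
    · intro x
      set Dl : V → V → ℝ := fun i j => if G.Adj i j then p i j - Z i j else 0 with hDl
      have e1 : ∀ i j, Z' i j = Z i j + Dl i j + if i = j then S else 0 := by
        intro i j
        simp only [hZ', hDl, hp]
        by_cases h : i = j
        · subst h; simp
        · rw [if_neg h, if_neg h, if_neg h]
          split_ifs <;> ring
      have e2 : ∑ i, ∑ j, x i * Z' i j * x j = (∑ i, ∑ j, x i * Z i j * x j) +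
          (∑ i, ∑ j, x i * Dl i j * x j) + S * ∑ k, x k ^ 2 := by
        rw [mul_sum, ← sum_add_distrib, ← sum_add_distrib]
        apply sum_congr rfl; intro i _
        have e3 : ∑ j, x i * Z' i j * x j = ∑ j, (x i * Z i j * x j + x i * Dl i j * x j +
            if i = j then S * (x i * x j) else 0) := by
          apply sum_congr rfl; intro j _
          rw [e1]; split_ifs <;> ring
        rw [e3, sum_add_distrib, sum_add_distrib, sum_ite_eq univ i, if_pos (mem_univ i)]
        ring
      rw [e2]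
      have e4 := form_bound Dl x
      have e5 : ∑ i, ∑ j, |Dl i j| = S := rfl
      rw [e5] at e4
      linarith [h2 x]
    · intro i
      simp only [hZ', if_true]
      linarith [hm i (mem_univ i)]
    · intro i j h
      simp only [hZ']
      rw [if_neg h.ne, if_pos h]
  have h4 : thetaBar G ≤ Z m m + S + 1 := csInf_le (feas_bdd G) hfe
  have h5 := h3 m
  have h6 : p m m = thetaBar G - 1 := by simp [hp]
  rw [h6] at h5
  linarith

/-- Strong duality. -/
lemma strong [Nonempty V] (G : SimpleGraph V) :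
    ∃ B : V → V → ℝ, (∀ i j, B i j = B j i) ∧ PF B ∧
      (∀ i j, i ≠ j → ¬ G.Adj i j → B i j = 0) ∧ ∑ i, B i i = 1 ∧
      ∑ i, ∑ j, B i j = thetaBar G := by
  classical
  set t := thetaBar G with ht
  set p : V → V → ℝ := fun i j => if i = j then t - 1 else -1 with hp
  obtain ⟨f, hf⟩ := geometric_hahn_banach_open_point (convex_cone G) (isOpen_cone G)
    (not_mem_cone G)
  have hfp : ∀ A ∈ cone G, f A < f p := hf
  set c : V → V → ℝ := fun a b => f (fun i j => if i = a ∧ j = b then 1 else 0) with hc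
  have hrep : ∀ A : V → V → ℝ, f A = ∑ a, ∑ b, A a b * c a b := by
    intro A
    have e1 : A = ∑ a, ∑ b, A a b • (fun i j => if i = a ∧ j = b then (1 : ℝ) else 0) := by
      ext i j
      simp only [Finset.sum_apply, Pi.smul_apply, smul_eq_mul, mul_ite, mul_one, mul_zero]
      rw [sum_eq_single i, sum_eq_single j]
      · simp
      · intro b _ hb; rw [if_neg (fun h => hb h.2.symm)]
      · simp
      · intro a _ ha
        apply sum_eq_zero; intro b _
        rw [if_neg (fun h => ha h.1.symm)]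
      · simp
    conv_lhs => rw [e1]
    rw [map_sum]
    apply sum_congr rfl; intro a _
    rw [map_sum]
    apply sum_congr rfl; intro b _
    rw [map_smul, smul_eq_mul]
  -- the identity belongs to the cone
  set I : V → V → ℝ := fun i j => if i = j then 1 else 0 with hI
  have hplus : ∀ (Z : V → V → ℝ), (∀ i j, Z i j = Z j i) → PF Z → ∀ e : ℝ, 0 < e →
      (Z + e • I) ∈ cone G := by
    intro Z h1 h2 e he
    refine ⟨Z, h1, h2, ?_⟩
    intro h
    have hv : viol G Z (Z + e • I) = 0 := by
      unfold viol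
      apply sum_eq_zero; intro i _
      apply sum_eq_zero; intro j _
      split_ifs with hadj
      · simp [hI, hadj.ne]
      · simp
    rw [hv]
    simp [hI, he]
  have hcone : ∀ A ∈ cone G, f A ≤ 0 ∧ 0 ≤ f p := by
    have hsc : ∀ A ∈ cone G, ∀ l : ℝ, 0 < l → l • A ∈ cone G := by
      rintro A ⟨Z, h1, h2, h3⟩ l hl
      refine ⟨l • Z, ?_, ?_, ?_⟩
      · intro i j; simp [h1 i j]
      · have := PF_comb Z Z l 0 hl.le le_rfl h2 h2
        simpa using this
      · intro h
        have h4 := viol_smul_add G Z Z A A l 0 hl.le le_rfl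
        simp only [zero_smul, add_zero, zero_mul] at h4
        have h5 : l * (Z h h + viol G Z A) < l * A h h := mul_lt_mul_of_pos_left (h3 h) hl
        simp only [Pi.smul_apply, smul_eq_mul]
        nlinarith
    intro A hA
    have h1 : ∀ l : ℝ, 0 < l → l * f A < f p := by
      intro l hl
      have := hfp _ (hsc A hA l hl)
      rwa [map_smul, smul_eq_mul] at this
    constructor
    · by_contra hcon
      push Not at hcon
      have h2 := h1 (|f p| / f A + 1) (by positivity)
      have h3 : (|f p| / f A + 1) * f A = |f p| + f A := by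
        field_simp
      rw [h3] at h2
      linarith [le_abs_self (f p)]
    · by_contra hcon
      push Not at hcon
      have h2 := h1 ((-f p) / (2 * (|f A| + 1))) (by
        apply div_pos (by linarith) (by positivity))
      have h4 : (0 : ℝ) < 2 * (|f A| + 1) := by positivity
      rw [div_mul_eq_mul_div, div_lt_iff₀ h4] at h2
      have h5 := abs_nonneg (f A)
      have h6 := neg_abs_le (f A)
      nlinarith
  have hIc : ((0 : V → V → ℝ) + (1 : ℝ) • I) ∈ cone G :=
    hplus 0 (by intro i j; rfl) (by intro x; simp) 1 one_pos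
  have hp0 : 0 ≤ f p := (hcone _ hIc).2
  have hPF : ∀ Z : V → V → ℝ, (∀ i j, Z i j = Z j i) → PF Z → f Z ≤ 0 := by
    intro Z h1 h2
    by_contra hcon
    push Not at hcon
    have h3 := (hcone _ (hplus Z h1 h2 (f Z / (2 * (|f I| + 1))) (by positivity))).1
    rw [map_add, map_smul, smul_eq_mul] at h3
    have h4 : (0 : ℝ) < 2 * (|f I| + 1) := by positivity
    have h5 : f Z / (2 * (|f I| + 1)) * |f I| ≤ f Z / 2 := by
      rw [div_mul_eq_mul_div, div_le_div_iff₀ h4 (by norm_num)]
      nlinarith [abs_nonneg (f I)]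
    have h6 : -(f Z / (2 * (|f I| + 1)) * |f I|) ≤ f Z / (2 * (|f I| + 1)) * f I := by
      have := neg_abs_le (f I)
      have h7 : 0 ≤ f Z / (2 * (|f I| + 1)) := by positivity
      nlinarith
    linarith
  have hnon : ∀ a b, a ≠ b → ¬ G.Adj a b → c a b = 0 := by
    intro a b hne hadj
    by_contra hcon
    have h1 : ∀ s : ℝ, ((0 : V → V → ℝ) + (1 : ℝ) • I) +
        s • (fun i j => if i = a ∧ j = b then (1 : ℝ) else 0) ∈ cone G := by
      intro s
      refine ⟨0, fun i j => rfl, by intro x; simp, ?_⟩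
      intro h
      have hv : viol G 0 (((0 : V → V → ℝ) + (1 : ℝ) • I) +
          s • (fun i j => if i = a ∧ j = b then (1 : ℝ) else 0)) = 0 := by
        unfold viol
        apply sum_eq_zero; intro i _
        apply sum_eq_zero; intro j _
        split_ifs with hij
        · have h2 : ¬ (i = a ∧ j = b) := by rintro ⟨rfl, rfl⟩; exact hadj hij
          simp [hI, hij.ne, h2]
        · simp
      rw [hv]
      have h3 : ¬ (h = a ∧ h = b) := by rintro ⟨rfl, h4⟩; exact hne h4
      simp [hI, h3]
    have h2 := hfp _ (h1 ((f p - f ((0 : V → V → ℝ) + (1 : ℝ) • I)) / c a b))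
    rw [map_add, map_smul, smul_eq_mul] at h2
    have h3 : f (fun i j => if i = a ∧ j = b then (1 : ℝ) else 0) = c a b := rfl
    rw [h3, div_mul_cancel₀ _ hcon] at h2
    linarith
  set C : V → V → ℝ := fun a b => -(c a b + c b a) / 2 with hC
  have hCs : ∀ a b, C a b = C b a := by intro a b; simp only [hC]; ring
  -- pairing with symmetric matrices
  have hpair : ∀ A : V → V → ℝ, (∀ i j, A i j = A j i) → f A = - ∑ a, ∑ b, A a b * C a b := by
    intro A hA
    have e1 : ∑ a, ∑ b, A a b * c b a = ∑ a, ∑ b, A a b * c a b := by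
      rw [sum_comm]
      apply sum_congr rfl; intro a _; apply sum_congr rfl; intro b _
      rw [hA b a]
    have e2 : ∑ a, ∑ b, A a b * C a b = - ((∑ a, ∑ b, A a b * c a b) +
        ∑ a, ∑ b, A a b * c b a) / 2 := by
      rw [← sum_add_distrib, ← sum_neg_distrib, sum_div]
      apply sum_congr rfl; intro a _
      rw [← sum_add_distrib, ← sum_neg_distrib, sum_div]
      apply sum_congr rfl; intro b _
      simp only [hC]; ring
    rw [hrep, e2, e1]; ring
  have hCPF : PF C := by
    intro x
    have h1 := hPF (fun i j => x i * x j) (fun i j => mul_comm _ _) (by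
      refine PF_of_gram (κ := Unit) _ (fun i _ => x i) ?_
      intro i j; simp)
    rw [hpair _ (fun i j => mul_comm _ _)] at h1
    have e1 : ∑ i, ∑ j, x i * C i j * x j = ∑ a, ∑ b, x a * x b * C a b := by
      apply sum_congr rfl; intro a _; apply sum_congr rfl; intro b _; ring
    rw [e1]; linarith
  have hC0 : ∀ a b, a ≠ b → ¬ G.Adj a b → C a b = 0 := by
    intro a b h1 h2
    simp only [hC]
    rw [hnon a b h1 h2, hnon b a h1.symm (fun h => h2 h.symm)]; simp
  obtain ⟨z, hz⟩ := gram C hCs hCPF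
  have hdiag : ∀ a, 0 ≤ C a a := by
    intro a; rw [hz]; exact sum_nonneg (fun k _ => mul_self_nonneg _)
  have htr0 : 0 ≤ ∑ a, C a a := sum_nonneg (fun a _ => hdiag a)
  have htr : 0 < ∑ a, C a a := by
    rcases htr0.eq_or_lt with h0 | h0
    · exfalso
      have h1 : ∀ a, C a a = 0 := by
        intro a
        exact (sum_eq_zero_iff_of_nonneg (fun a _ => hdiag a)).mp h0.symm a (mem_univ a)
      have h2 : ∀ a k, z a k = 0 := by
        intro a k
        have h3 := h1 a
        rw [hz] at h3
        have h4 := (sum_eq_zero_iff_of_nonneg (fun k _ => mul_self_nonneg (z a k))).mp h3 k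
          (mem_univ k)
        exact mul_self_eq_zero.mp h4
      have h3 : ∀ a b, C a b = 0 := by
        intro a b; rw [hz]; apply sum_eq_zero; intro k _; rw [h2 a k, zero_mul]
      have h4 : f p = 0 := by
        rw [hpair p (by
          intro i j
          simp only [hp]
          by_cases h : i = j
          · rw [if_pos h, if_pos h.symm]
          · rw [if_neg h, if_neg (fun h' => h h'.symm)])]
        simp [h3]
      have h5 : f ((0 : V → V → ℝ) + (1 : ℝ) • I) = 0 := by
        rw [hpair _ (by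
          intro i j
          simp only [hI, Pi.add_apply, Pi.zero_apply, Pi.smul_apply, smul_eq_mul]
          by_cases h : i = j
          · rw [if_pos h, if_pos h.symm]
          · rw [if_neg h, if_neg (fun h' => h h'.symm)])]
        simp [h3]
      have h6 := hfp _ hIc
      rw [h4, h5] at h6
      exact lt_irrefl _ h6
    · exact h0
  -- the inequality from `p`
  have hsum : t * ∑ a, C a a ≤ ∑ a, ∑ b, C a b := by
    have h1 : f p = - ∑ a, ∑ b, p a b * C a b := hpair p (by
      intro i j
      simp only [hp]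
      by_cases h : i = j
      · rw [if_pos h, if_pos h.symm]
      · rw [if_neg h, if_neg (fun h' => h h'.symm)])
    have h2 : ∀ a, ∑ b, p a b * C a b = t * C a a - ∑ b, C a b := by
      intro a
      rw [← sum_erase_add _ _ (mem_univ a), ← sum_erase_add univ (fun b => C a b) (mem_univ a)]
      have h3 : ∑ b ∈ univ.erase a, p a b * C a b = - ∑ b ∈ univ.erase a, C a b := by
        rw [← sum_neg_distrib]
        apply sum_congr rfl; intro b hb
        simp only [hp]
        rw [if_neg (ne_of_mem_erase hb).symm]; ring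
      rw [h3]
      simp only [hp, if_true]
      ring
    simp_rw [h2] at h1
    rw [sum_sub_distrib, ← mul_sum] at h1
    linarith
  set T := ∑ a, C a a with hT
  refine ⟨fun a b => C a b / T, ?_, ?_, ?_, ?_, ?_⟩
  · intro a b; show C a b / T = C b a / T; rw [hCs]
  · intro x
    have e1 : ∑ i, ∑ j, x i * (C i j / T) * x j = (∑ i, ∑ j, x i * C i j * x j) / T := by
      rw [sum_div]; apply sum_congr rfl; intro i _
      rw [sum_div]; apply sum_congr rfl; intro j _; ring
    rw [e1]
    exact div_nonneg (hCPF x) htr0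
  · intro a b h1 h2
    show C a b / T = 0
    rw [hC0 a b h1 h2, zero_div]
  · rw [← sum_div, ← hT]; exact div_self htr.ne'
  · have e1 : ∑ a, ∑ b, C a b / T = (∑ a, ∑ b, C a b) / T := by
      rw [sum_div]; apply sum_congr rfl; intro i _; rw [sum_div]
    rw [e1]
    have h1 := weak G C hCPF hC0
    rw [← ht, ← hT] at h1
    rw [le_antisymm h1 hsum]
    field_simp

lemma attained_mem [Nonempty V] (G : SimpleGraph V) : thetaBar G ∈ Feas G := by
  obtain ⟨Z, h1, h2, h3, h4⟩ := attained G
  exact feas_of_form Z h1 h2 (fun i => (h3 i).le) h4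

end Basic

section Transfer

variable {V W : Type} [Fintype V] [Fintype W]

/-- A vector homomorphism from `G` to `H`. -/
def VHom (G : SimpleGraph V) (H : SimpleGraph W) {κ : Type} [Fintype κ] (w : V → W → κ → ℝ)
    (w0 : κ → ℝ) : Prop :=
  ∑ k, w0 k * w0 k = 1 ∧ (∀ g k, ∑ h, w g h k = w0 k) ∧
    (∀ g h h', h ≠ h' → ∑ k, w g h k * w g h' k = 0) ∧
    ∀ g g' h h', G.Adj g g' → ¬ H.Adj h h' → ∑ k, w g h k * w g' h' k = 0

/-- The transported vectors. -/
def tr {κ μ : Type} {r : ℕ} (w : V → W → κ → ℝ) (w0 : κ → ℝ) (u : Option (W × Fin r) → μ → ℝ) :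
    Option (V × Fin r) → κ × μ → ℝ
  | none, kl => w0 kl.1 * u none kl.2
  | some (g, i), kl => ∑ h, w g h kl.1 * u (some (h, i)) kl.2

lemma tr_ident {κ μ : Type} {r : ℕ} (w : V → W → κ → ℝ) (w0 : κ → ℝ)
    (u : Option (W × Fin r) → μ → ℝ) (hw : ∀ g k, ∑ h, w g h k = w0 k)
    (g : V) (i : Fin (r + 1)) (kl : κ × μ) :
    tr w w0 u (ident (g, i)) kl = ∑ h, w g h kl.1 * u (ident (h, i)) kl.2 := by
  unfold ident
  by_cases h : i.val < r
  · simp only [h, dite_true]
    rfl
  · simp only [h, dite_false]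
    show w0 kl.1 * u none kl.2 = _
    rw [← sum_mul, hw]

lemma inner_tr {κ μ : Type} [Fintype κ] [Fintype μ] {r : ℕ} (w : V → W → κ → ℝ) (w0 : κ → ℝ)
    (u : Option (W × Fin r) → μ → ℝ) (hw : ∀ g k, ∑ h, w g h k = w0 k)
    (g g' : V) (i i' : Fin (r + 1)) :
    ∑ kl, tr w w0 u (ident (g, i)) kl * tr w w0 u (ident (g', i')) kl =
      ∑ h, ∑ h', (∑ k, w g h k * w g' h' k) * ∑ l, u (ident (h, i)) l * u (ident (h', i')) l := by
  calc ∑ kl, tr w w0 u (ident (g, i)) kl * tr w w0 u (ident (g', i')) kl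
      = ∑ kl : κ × μ, ∑ h, ∑ h', (w g h kl.1 * w g' h' kl.1) *
          (u (ident (h, i)) kl.2 * u (ident (h', i')) kl.2) := by
        apply sum_congr rfl; intro kl _
        rw [tr_ident w w0 u hw, tr_ident w w0 u hw, sum_mul_sum]
        apply sum_congr rfl; intro h _; apply sum_congr rfl; intro h' _; ring
    _ = ∑ h, ∑ kl : κ × μ, ∑ h', (w g h kl.1 * w g' h' kl.1) *
          (u (ident (h, i)) kl.2 * u (ident (h', i')) kl.2) := by rw [sum_comm]
    _ = ∑ h, ∑ h', ∑ kl : κ × μ, (w g h kl.1 * w g' h' kl.1) *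
          (u (ident (h, i)) kl.2 * u (ident (h', i')) kl.2) := by
        apply sum_congr rfl; intro h _; rw [sum_comm]
    _ = _ := by
        apply sum_congr rfl; intro h _; apply sum_congr rfl; intro h' _
        rw [Fintype.sum_prod_type, sum_mul_sum]

lemma norm_sum {G : SimpleGraph V} {H : SimpleGraph W} {κ : Type} [Fintype κ]
    {w : V → W → κ → ℝ} {w0 : κ → ℝ} (hv : VHom G H w w0) (g : V) (a : W → ℝ) :
    ∑ h, ∑ h', (∑ k, w g h k * w g h' k) * a h = ∑ h, (∑ k, w g h k * w g h k) * a h := by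
  classical
  apply sum_congr rfl; intro h _
  rw [sum_eq_single h]
  · intro h' _ hne
    rw [hv.2.2.1 g h h' (fun e => hne e.symm), zero_mul]
  · intro h2; exact absurd (mem_univ h) h2

lemma norm_one {G : SimpleGraph V} {H : SimpleGraph W} {κ : Type} [Fintype κ]
    {w : V → W → κ → ℝ} {w0 : κ → ℝ} (hv : VHom G H w w0) (g : V) :
    ∑ h, ∑ k, w g h k * w g h k = 1 := by
  have h1 := norm_sum hv g (fun _ => 1)
  simp only [mul_one] at h1
  rw [← h1, ← hv.1]
  calc ∑ h, ∑ h', ∑ k, w g h k * w g h' k = ∑ h, ∑ k, ∑ h', w g h k * w g h' k := by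
        apply sum_congr rfl; intro h _; rw [sum_comm]
    _ = ∑ k, ∑ h, ∑ h', w g h k * w g h' k := by rw [sum_comm]
    _ = _ := by
        apply sum_congr rfl; intro k _
        rw [← sum_mul_sum, hv.2.1 g k]

lemma transfer [Nonempty V] [Nonempty W] {G : SimpleGraph V} {H : SimpleGraph W} {κ : Type}
    [Fintype κ] {w : V → W → κ → ℝ} {w0 : κ → ℝ} (hv : VHom G H w w0) {r : ℕ} {t : ℝ}
    (ht : t ∈ Feas (Mr H r)) : t ∈ Feas (Mr G r) := by
  classical
  obtain ⟨d, u, c, ⟨h1, h2⟩, h3, h4⟩ := feas_pos ht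
  have hw := hv.2.1
  have hid : ∀ x : Option (V × Fin r), ∃ g i, ident (g, i) = x := by
    intro x
    rcases x with _ | ⟨g, i⟩
    · obtain ⟨g⟩ := (inferInstance : Nonempty V)
      exact ⟨g, Fin.last r, by simp [ident]⟩
    · refine ⟨g, i.castSucc, ?_⟩
      simp [ident]
  refine feas_of (κ := κ × Fin d) (tr w w0 u) (fun kl => w0 kl.1 * c kl.2) ?_ ?_ ?_ ?_
  · intro x
    obtain ⟨g, i, rfl⟩ := hid x
    rw [inner_tr w w0 u hw]
    have e1 : ∀ h, ∑ h', (∑ k, w g h k * w g h' k) * ∑ l, u (ident (h, i)) l * u (ident (h', i)) l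
        = ∑ k, w g h k * w g h k := by
      intro h
      rw [sum_eq_single h]
      · rw [h1, mul_one]
      · intro h' _ hne
        rw [hv.2.2.1 g h h' (fun e => hne e.symm), zero_mul]
      · intro h2; exact absurd (mem_univ h) h2
    simp_rw [e1]
    exact norm_one hv g
  · rintro x y ⟨hne, ⟨g, i⟩, ⟨g', i'⟩, rfl, rfl, hadj, hpath⟩
    rw [inner_tr w w0 u hw]
    apply sum_eq_zero; intro h _
    apply sum_eq_zero; intro h' _
    by_cases hH : H.Adj h h'
    · have hne' : ident (h, i) ≠ ident (h', i') := by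
        intro e
        unfold ident at e hne
        by_cases hi : i.val < r <;> by_cases hi' : i'.val < r
        · simp only [hi, hi', dite_true, Option.some.injEq, Prod.mk.injEq] at e
          exact hH.ne e.1
        · simp [hi, hi'] at e
        · simp [hi, hi'] at e
        · simp [hi, hi'] at hne
      rw [h2 _ _ ⟨hne', (h, i), (h', i'), rfl, rfl, hH, hpath⟩, mul_zero]
    · rw [hv.2.2.2 g g' h h' hadj hH, zero_mul]
  · rw [Fintype.sum_prod_type]
    have e1 : ∀ k, ∑ l, w0 k * c l * (w0 k * c l) = w0 k * w0 k * ∑ l, c l * c l := by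
      intro k; rw [mul_sum]; apply sum_congr rfl; intro l _; ring
    simp_rw [e1]
    rw [h3]; simp only [mul_one]; exact hv.1
  · intro x
    obtain ⟨g, i, rfl⟩ := hid x
    have e0 : ∀ h, ∑ k, w0 k * w g h k = ∑ k, w g h k * w g h k := by
      intro h
      calc ∑ k, w0 k * w g h k = ∑ k, ∑ h', w g h' k * w g h k := by
            apply sum_congr rfl; intro k _; rw [← sum_mul, hw]
        _ = ∑ h', ∑ k, w g h' k * w g h k := by rw [sum_comm]
        _ = _ := by
            rw [sum_eq_single h]
            · intro h' _ hne; exact hv.2.2.1 g h' h hne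
            · intro h2; exact absurd (mem_univ h) h2
    have e1 : ∑ kl : κ × Fin d, w0 kl.1 * c kl.2 * tr w w0 u (ident (g, i)) kl =
        ∑ h, (∑ k, w g h k * w g h k) * ∑ l, c l * u (ident (h, i)) l := by
      calc ∑ kl : κ × Fin d, w0 kl.1 * c kl.2 * tr w w0 u (ident (g, i)) kl
          = ∑ kl : κ × Fin d, ∑ h, (w0 kl.1 * w g h kl.1) * (c kl.2 * u (ident (h, i)) kl.2) := by
            apply sum_congr rfl; intro kl _
            rw [tr_ident w w0 u hw, mul_sum]
            apply sum_congr rfl; intro h _; ring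
        _ = ∑ h, ∑ kl : κ × Fin d, (w0 kl.1 * w g h kl.1) * (c kl.2 * u (ident (h, i)) kl.2) := by
            rw [sum_comm]
        _ = _ := by
            apply sum_congr rfl; intro h _
            rw [Fintype.sum_prod_type, ← e0, sum_mul_sum]
    obtain ⟨m, -, hm⟩ := (univ : Finset W).exists_min_image
      (fun h => ∑ l, c l * u (ident (h, i)) l) univ_nonempty
    set a := ∑ l, c l * u (ident (m, i)) l with ha
    have hapos : 0 < a := (h4 _).1
    have hat : 1 / a ^ 2 ≤ t := (h4 _).2
    have e2 : a ≤ ∑ h, (∑ k, w g h k * w g h k) * ∑ l, c l * u (ident (h, i)) l := by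
      calc a = (∑ h, ∑ k, w g h k * w g h k) * a := by rw [norm_one hv g, one_mul]
        _ = ∑ h, (∑ k, w g h k * w g h k) * a := by rw [sum_mul]
        _ ≤ _ := by
            apply sum_le_sum; intro h _
            apply mul_le_mul_of_nonneg_left (hm h (mem_univ h))
            exact sum_nonneg (fun k _ => mul_self_nonneg _)
    rw [e1]
    refine ⟨(lt_of_lt_of_le hapos e2).ne', ?_⟩
    refine le_trans ?_ hat
    apply one_div_le_one_div_of_le (by positivity)
    exact pow_le_pow_left₀ hapos.le e2 2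

end Transfer

section Construct

variable {V W : Type} [Fintype V] [Fintype W]

lemma two_le [Nonempty V] (G : SimpleGraph V) {i j : V} (h : G.Adj i j) : 2 ≤ thetaBar G := by
  classical
  obtain ⟨Z, h1, h2, h3, h4⟩ := attained G
  obtain ⟨z, hz⟩ := gram Z h1 h2
  have h5 : 0 ≤ ∑ k, (z i k + z j k) ^ 2 := sum_nonneg (fun k _ => sq_nonneg _)
  have e2 : ∑ k, (z i k + z j k) ^ 2 = Z i i + Z j j + 2 * Z i j := by
    rw [hz i i, hz j j, hz i j, mul_sum, ← sum_add_distrib, ← sum_add_distrib]
    apply sum_congr rfl; intro k _; ring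
  rw [e2, h3, h3, h4 i j h] at h5
  linarith

/-- Products of nonnegative forms. -/
lemma PF_tensor (Z : V → V → ℝ) (M : W → W → ℝ) (hZs : ∀ i j, Z i j = Z j i) (hZ : PF Z)
    (hM : PF M) : PF (fun (a b : V × W) => Z a.1 b.1 * M a.2 b.2) := by
  obtain ⟨z, hz⟩ := gram Z hZs hZ
  intro x
  have e1 : ∑ a : V × W, ∑ b : V × W, x a * (Z a.1 b.1 * M a.2 b.2) * x b =
      ∑ k, ∑ h, ∑ h', (∑ g, x (g, h) * z g k) * M h h' * (∑ g', x (g', h') * z g' k) := by
    calc ∑ a : V × W, ∑ b : V × W, x a * (Z a.1 b.1 * M a.2 b.2) * x b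
        = ∑ a : V × W, ∑ b : V × W, ∑ k, (x a * z a.1 k) * M a.2 b.2 * (x b * z b.1 k) := by
          apply sum_congr rfl; intro a _; apply sum_congr rfl; intro b _
          rw [hz, sum_mul, mul_sum, sum_mul]
          apply sum_congr rfl; intro k _; ring
      _ = ∑ a : V × W, ∑ k, ∑ b : V × W, (x a * z a.1 k) * M a.2 b.2 * (x b * z b.1 k) := by
          apply sum_congr rfl; intro a _; rw [sum_comm]
      _ = ∑ k, ∑ a : V × W, ∑ b : V × W, (x a * z a.1 k) * M a.2 b.2 * (x b * z b.1 k) := by
          rw [sum_comm]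
      _ = _ := by
          apply sum_congr rfl; intro k _
          rw [Fintype.sum_prod_type_right]
          apply sum_congr rfl; intro h _
          calc ∑ g, ∑ b : V × W, x (g, h) * z g k * M h b.2 * (x b * z b.1 k)
              = ∑ g, ∑ h', ∑ g', x (g, h) * z g k * M h h' * (x (g', h') * z g' k) := by
                apply sum_congr rfl; intro g _
                rw [Fintype.sum_prod_type_right]
            _ = ∑ h', ∑ g, ∑ g', x (g, h) * z g k * M h h' * (x (g', h') * z g' k) := by
                rw [sum_comm]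
            _ = _ := by
                apply sum_congr rfl; intro h' _
                rw [sum_mul, sum_mul_sum]
  rw [e1]
  exact sum_nonneg (fun k _ => hM (fun h => ∑ g, x (g, h) * z g k))

lemma exists_vhom [Nonempty V] [Nonempty W] (G : SimpleGraph V) (H : SimpleGraph W)
    (hGH : thetaBar G ≤ thetaBar H) :
    ∃ (κ : Type) (_ : Fintype κ) (w : V → W → κ → ℝ) (w0 : κ → ℝ), VHom G H w w0 := by
  classical
  by_cases hcase : ∀ g g', ¬ G.Adj g g'
  · -- no edges
    obtain ⟨h0⟩ := (inferInstance : Nonempty W)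
    refine ⟨Unit, inferInstance, fun _ h _ => if h = h0 then 1 else 0, fun _ => 1, ?_, ?_, ?_, ?_⟩
    · simp
    · intro g k; simp
    · intro g h h' hne
      simp only [univ_unique, PUnit.default_eq_unit, sum_singleton]
      by_cases e1 : h = h0
      · have e2 : ¬ h' = h0 := fun e => hne (e1.trans e.symm)
        simp [e2]
      · simp [e1]
    · intro g g' h h' hadj _; exact absurd hadj (hcase g g')
  push Not at hcase
  obtain ⟨g1, g2, hg12⟩ := hcase
  have htG := two_le G hg12
  set t := thetaBar H with ht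
  have ht2 : 2 ≤ t := htG.trans hGH
  obtain ⟨B, hBs, hBp, hB0, hB1, hBt⟩ := strong H
  obtain ⟨Z0, hZs0, hZp0, hZd0, hZe0⟩ := attained G
  -- raise the diagonal
  set Z : V → V → ℝ := fun i j => Z0 i j + if i = j then (t - thetaBar G) else 0 with hZdef
  have hZs : ∀ i j, Z i j = Z j i := by
    intro i j
    simp only [hZdef]
    by_cases h : i = j
    · subst h; rfl
    · have h' : ¬ j = i := fun e => h e.symm
      simp only [if_neg h, if_neg h', hZs0 i j]
  have hZp : PF Z := by
    intro x
    have e1 : ∑ i, ∑ j, x i * Z i j * x j =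
        (∑ i, ∑ j, x i * Z0 i j * x j) + (t - thetaBar G) * ∑ i, x i * x i := by
      rw [mul_sum, ← sum_add_distrib]
      apply sum_congr rfl; intro i _
      have e2 : ∑ j, x i * Z i j * x j = ∑ j, (x i * Z0 i j * x j +
          if i = j then (t - thetaBar G) * (x i * x j) else 0) := by
        apply sum_congr rfl; intro j _
        simp only [hZdef]
        split_ifs <;> ring
      rw [e2, sum_add_distrib, sum_ite_eq univ i, if_pos (mem_univ i)]
    rw [e1]
    have e3 : 0 ≤ (t - thetaBar G) * ∑ i, x i * x i :=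
      mul_nonneg (by linarith) (sum_nonneg (fun i _ => mul_self_nonneg _))
    linarith [hZp0 x]
  have hZd : ∀ i, Z i i = t - 1 := by
    intro i; simp only [hZdef, if_true]; rw [hZd0]; ring
  have hZe : ∀ i j, G.Adj i j → Z i j = -1 := by
    intro i j h
    simp only [hZdef]
    rw [if_neg h.ne, hZe0 i j h, add_zero]
  -- the second factor
  set M : W → W → ℝ := fun h h' => (if h = h' then t * B h h else 0) - B h h' with hM
  have hMp : PF M := by
    intro y
    have h1 := weak H (fun h h' => y h * B h h' * y h') (by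
      intro x
      have := hBp (fun h => x h * y h)
      refine this.trans (le_of_eq ?_)
      apply sum_congr rfl; intro i _; apply sum_congr rfl; intro j _; ring) (by
      intro i j hne hadj
      rw [hB0 i j hne hadj]; ring)
    have e1 : ∑ i, ∑ j, y i * M i j * y j =
        t * (∑ i, y i * B i i * y i) - ∑ i, ∑ j, y i * B i j * y j := by
      rw [mul_sum, ← sum_sub_distrib]
      apply sum_congr rfl; intro i _
      have e2 : ∑ j, y i * M i j * y j = ∑ j, ((if i = j then t * (y i * B i i * y j) else 0) -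
          y i * B i j * y j) := by
        apply sum_congr rfl; intro j _
        simp only [hM]
        split_ifs <;> ring
      rw [e2, sum_sub_distrib, sum_ite_eq univ i, if_pos (mem_univ i)]
    rw [e1]
    linarith
  set X : V × W → V × W → ℝ := fun a b => B a.2 b.2 + (t - 1)⁻¹ * (Z a.1 b.1 * M a.2 b.2) with hX
  have hXs : ∀ a b, X a b = X b a := by
    intro a b
    simp only [hX, hM]
    rw [hBs a.2 b.2, hZs a.1 b.1]
    by_cases h : a.2 = b.2
    · rw [h]
    · have h' : ¬ b.2 = a.2 := fun e => h e.symm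
      simp only [if_neg h, if_neg h']
  have hXp : PF X := by
    intro x
    have e1 : ∑ a, ∑ b, x a * X a b * x b =
        (∑ a : V × W, ∑ b : V × W, x a * (1 * B a.2 b.2) * x b) +
        (t - 1)⁻¹ * ∑ a : V × W, ∑ b : V × W, x a * (Z a.1 b.1 * M a.2 b.2) * x b := by
      rw [mul_sum, ← sum_add_distrib]
      apply sum_congr rfl; intro a _
      rw [mul_sum, ← sum_add_distrib]
      apply sum_congr rfl; intro b _
      simp only [hX]; ring
    rw [e1]
    have h1 := PF_tensor (V := V) (W := W) (fun _ _ => 1) B (fun _ _ => rfl)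
      (PF_of_gram (κ := Unit) _ (fun _ _ => 1) (by intro i j; simp)) hBp x
    have h2 := PF_tensor Z M hZs hZp hMp x
    have h3 : 0 ≤ (t - 1)⁻¹ := inv_nonneg.mpr (by linarith)
    exact add_nonneg h1 (mul_nonneg h3 h2)
  obtain ⟨y, hy⟩ := gram X hXs hXp
  have htm : t - 1 ≠ 0 := by linarith
  -- sums of all entries
  have hMsum : ∑ h, ∑ h', M h h' = 0 := by
    have e1 : ∀ h, ∑ h', M h h' = t * B h h - ∑ h', B h h' := by
      intro h
      simp only [hM]
      rw [sum_sub_distrib, sum_ite_eq univ h, if_pos (mem_univ h)]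
    simp_rw [e1]
    rw [sum_sub_distrib, ← mul_sum, hB1, hBt]; ring
  have hXsum : ∀ g g', ∑ h, ∑ h', X (g, h) (g', h') = t := by
    intro g g'
    have e1 : ∑ h, ∑ h', X (g, h) (g', h') = (∑ h, ∑ h', B h h') +
        ((t - 1)⁻¹ * Z g g') * ∑ h, ∑ h', M h h' := by
      rw [mul_sum, ← sum_add_distrib]
      apply sum_congr rfl; intro h _
      rw [mul_sum, ← sum_add_distrib]
      apply sum_congr rfl; intro h' _
      simp only [hX]; ring
    rw [e1, hMsum, hBt]; ring
  have hS : ∀ g g', ∑ k, (∑ h, y (g, h) k) * (∑ h', y (g', h') k) = t := by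
    intro g g'
    rw [← hXsum g g']
    calc ∑ k, (∑ h, y (g, h) k) * (∑ h', y (g', h') k)
        = ∑ k, ∑ h, ∑ h', y (g, h) k * y (g', h') k := by
          apply sum_congr rfl; intro k _; rw [sum_mul_sum]
      _ = ∑ h, ∑ k, ∑ h', y (g, h) k * y (g', h') k := by rw [sum_comm]
      _ = ∑ h, ∑ h', ∑ k, y (g, h) k * y (g', h') k := by
          apply sum_congr rfl; intro h _; rw [sum_comm]
      _ = _ := by
          apply sum_congr rfl; intro h _; apply sum_congr rfl; intro h' _
          rw [hy]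
  have hSeq : ∀ g k, ∑ h, y (g, h) k = ∑ h, y (g1, h) k := by
    intro g k
    have h1 : ∑ k, ((∑ h, y (g, h) k) - (∑ h, y (g1, h) k)) ^ 2 = 0 := by
      have e1 : ∑ k, ((∑ h, y (g, h) k) - (∑ h, y (g1, h) k)) ^ 2 =
          (∑ k, (∑ h, y (g, h) k) * (∑ h, y (g, h) k)) +
          (∑ k, (∑ h, y (g1, h) k) * (∑ h, y (g1, h) k)) -
          2 * ∑ k, (∑ h, y (g, h) k) * (∑ h, y (g1, h) k) := by
        rw [mul_sum, ← sum_add_distrib, ← sum_sub_distrib]
        apply sum_congr rfl; intro k _; ring
      rw [e1, hS, hS, hS]; ring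
    have h2 := (sum_eq_zero_iff_of_nonneg (fun k _ => sq_nonneg _)).mp h1 k (mem_univ k)
    have h3 := pow_eq_zero_iff (two_ne_zero) |>.mp h2
    linarith
  have htpos : 0 < t := by linarith
  set s := Real.sqrt t with hs
  have hs2 : s * s = t := Real.mul_self_sqrt htpos.le
  have hs0 : s ≠ 0 := by
    intro h; rw [h] at hs2; linarith
  have hyy : ∀ a b, ∑ k, (y a k / s) * (y b k / s) = X a b / t := by
    intro a b
    rw [hy, sum_div]
    apply sum_congr rfl; intro k _
    rw [div_mul_div_comm, hs2]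
  refine ⟨V × W, inferInstance, fun g h k => y (g, h) k / s, fun k => (∑ h, y (g1, h) k) / s,
    ?_, ?_, ?_, ?_⟩
  · have e1 : ∑ k, (∑ h, y (g1, h) k) / s * ((∑ h, y (g1, h) k) / s) = t / t := by
      rw [← hS g1 g1, sum_div, hS g1 g1]
      apply sum_congr rfl; intro k _
      rw [div_mul_div_comm, hs2]
    rw [e1]; exact div_self htpos.ne'
  · intro g k
    show ∑ h, y (g, h) k / s = _
    rw [← sum_div, hSeq g k]
  · intro g h h' hne
    show ∑ k, y (g, h) k / s * (y (g, h') k / s) = 0
    rw [hyy]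
    simp only [hX, hM]
    rw [hZd, if_neg hne]
    field_simp
    ring
  · intro g g' h h' hadj hH
    show ∑ k, y (g, h) k / s * (y (g', h') k / s) = 0
    rw [hyy]
    simp only [hX, hM]
    rw [hZe g g' hadj]
    by_cases hh : h = h'
    · subst hh
      rw [if_pos rfl]
      field_simp
      ring
    · rw [if_neg hh, hB0 h h' hh hH]
      simp

end Construct

/-- Monotonicity. -/
theorem mono {V W : Type} [Fintype V] [Fintype W] [Nonempty V] [Nonempty W] (G : SimpleGraph V)
    (H : SimpleGraph W) (h : thetaBar G ≤ thetaBar H) (r : ℕ) :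
    thetaBar (Mr G r) ≤ thetaBar (Mr H r) := by
  obtain ⟨κ, _, w, w0, hv⟩ := exists_vhom G H h
  exact csInf_le (feas_bdd _) (transfer hv (attained_mem _))

/-- (1) `thetaBar G` is a minimum; (2) for every `r`, the number `thetaBar (M_r(G))` is determined by
`thetaBar G`; (3) it is moreover nondecreasing in `thetaBar G`. -/
theorem result :
    (∀ (V : Type) [Fintype V] [Nonempty V] (G : SimpleGraph V), IsLeast (Feas G) (thetaBar G)) ∧
    (∀ r : ℕ, ∃ g : ℝ → ℝ, ∀ (V : Type) [Fintype V] [Nonempty V] (G : SimpleGraph V),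
      thetaBar (Mr G r) = g (thetaBar G)) ∧
    (∀ (r : ℕ) (V W : Type) [Fintype V] [Nonempty V] [Fintype W] [Nonempty W]
      (G : SimpleGraph V) (H : SimpleGraph W), thetaBar G ≤ thetaBar H →
        thetaBar (Mr G r) ≤ thetaBar (Mr H r)) := by
  classical
  refine ⟨?_, ?_, ?_⟩
  · intro V _ _ G
    exact ⟨attained_mem G, fun t ht => csInf_le (feas_bdd G) ht⟩
  · intro r
    have hchoice : ∀ t : ℝ, ∃ y : ℝ, ∀ (V : Type) [Fintype V] [Nonempty V] (G : SimpleGraph V),
        thetaBar G = t → thetaBar (Mr G r) = y := by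
      intro t
      by_cases hex : ∃ (V : Type) (_ : Fintype V) (_ : Nonempty V) (G : SimpleGraph V),
          thetaBar G = t
      · obtain ⟨W, _, _, H, hH⟩ := hex
        refine ⟨thetaBar (Mr H r), ?_⟩
        intro V _ _ G hG
        exact le_antisymm (mono G H (hG.trans hH.symm).le r) (mono H G (hH.trans hG.symm).le r)
      · refine ⟨0, ?_⟩
        intro V _ _ G hG
        exact absurd ⟨V, inferInstance, inferInstance, G, hG⟩ hex
    choose g hg using hchoice
    exact ⟨g, fun V _ _ G => hg _ V G rfl⟩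
  · intro r V W _ _ _ _ G H h
    exact mono G H h r

end Pool.Agent.Results.MP_8a180b_co.Determined
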